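import Pool.Agent.U50.TDA

set_option autoImplicit false

/-!
# MP_6ebba1_al, Q1: all admissible maps of a tridiagonal pair

`A, A* = B` is an arbitrary tridiagonal pair over an arbitrary field, with eigenspaces `V_i`, `V*_i`
for the eigenvalues `a i`, `b i` (`0 ≤ i ≤ d`) in a standard order. A linear map `S : V → V` is
admissible if `S V_i = V_i` and `S (V*_0 + ⋯ + V*_i) = V*_d + ⋯ + V*_{d-i}` for `0 ≤ i ≤ d`.

Let `L_j = (V*_0 + ⋯ + V*_j) ∩ (V_j + ⋯ + V_{d-j})` and
`L'_j = (V*_d + ⋯ + V*_{d-j}) ∩ (V_j + ⋯ + V_{d-j})`. The admissible maps correspond to the families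
of linear isomorphisms `σ_j : L_j → L'_j`: every admissible `S` maps `L_j` bijectively onto `L'_j`,
every family `σ` comes from exactly one admissible `S`, and this `S` is given on the eigenspace
`V_i = ⊕_{j ≤ min(i, d-i)} E_i L_j` by `S E_i q = E_i σ_j q`.

Definitions are in `Pool.Agent.U50.TDA`, `Pool.Agent.R841.TD.Fin` (`Low`, `tau`, `StringDecomp`,
`DimEigenspaces`, `Irred`), `Pool.Agent.R841.TD.Defs` (`str`), `Pool.Agent.R841.TD.Dec` (`II`) and
`Pool.Agent.Helper9.TDBasic` (`TDOrdering`, `proj`, `vals`).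
-/

open Module Polynomial Pool.Agent.R841.TD Pool.Agent.U50.TDA
open Pool.Agent.Helper9.TD (TDOrdering)

namespace Pool.Agent.Results.MP_6ebba1_al.AdmissibleMaps

/-- Let `A, B` be a tridiagonal pair with eigenspaces `V_i`, `V*_i` (`0 ≤ i ≤ d`) in a standard
order, `E_i` the projection onto `V_i` along the other eigenspaces of `A`, and
`τ_{j,s} = ∏_{h<s} (A - a_{j+h})`.

1. (`StringDecomp`) Every `v ∈ V` is in a unique way `∑ τ_{j,s} q_{j,s}` (`2 j + s ≤ d`,
   `q_{j,s} ∈ L_j`).
2. (`EigDecomp`) Every `v ∈ V_i` is in a unique way `∑_{j ≤ min(i, d-i)} E_i q_j` with `q_j ∈ L_j`.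
3. (`DimEigenspaces`) `dim V_i = ∑_{j ≤ min(i, d-i)} dim L_j`, so `dim L_j = dim V_j - dim V_{j-1}`
   for `2 j ≤ d`.
4. For every admissible `S` there is exactly one family of isomorphisms `σ_j : L_j → L'_j` with
   `S q = σ_j q` for `q ∈ L_j`.
5. For every family of isomorphisms `σ_j : L_j → L'_j` there is exactly one admissible `S` with
   `S q = σ_j q` for `q ∈ L_j`.
6. This `S` is given by `S E_i q = E_i σ_j q` and `S τ_{j,s} q = τ_{j,s} σ_j q` for `q ∈ L_j`.
7. There are such families: `dim L_j = dim L'_j`. -/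
theorem result {K : Type*} [Field K] {V : Type*} [AddCommGroup V] [Module K V]
    [FiniteDimensional K V] {A B : Module.End K V} {d : ℕ} {a b : ℕ → K}
    (hA : TDOrdering A B d a) (hB : TDOrdering B A d b) (irred : Irred A B) :
    StringDecomp A B d a b ∧ EigDecomp A d a (Low A B d a b) ∧ DimEigenspaces A B d a b ∧
    (∀ S, Admissible A B d a b S → ∃! σ : Isos A B d a b, Extends A B d a b S σ) ∧
    (∀ σ : Isos A B d a b, ∃! S, Admissible A B d a b S ∧ Extends A B d a b S σ) ∧
    (∀ S, ∀ σ : Isos A B d a b, Admissible A B d a b S → Extends A B d a b S σ →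
      OnEig A B d a b S σ ∧ OnStrings A B d a b S σ) ∧
    Nonempty (Isos A B d a b) := by
  obtain ⟨h1, h2, h3, h4, h5⟩ := Pool.Agent.U50.TDA.main hA hB irred
  exact ⟨(Pool.Agent.R841.TD.main hA hB irred).1, h1, (main_dim hA hB irred).2, h2, h3, h4, h5⟩

end Pool.Agent.Results.MP_6ebba1_al.AdmissibleMaps
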